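import Pool.Agent.Lib.MP_d57abb_nt.GA.TS.Big
import Pool.Agent.Lib.MP_d57abb_nt.GA.TS.PerK

/-!
# from frames to integers

`count`: let `C` be the constant of `big`, `K = max (2 C / c2) 2` and `T = K log X` (`≥ 1` for `X ≥ 3`).  The frames `x ∈ GG (1/c) c X` with `P (kk x).toNat` are at least `c2 X` (`sum_wn`, `tc_wn`).  Those with
`T < td x.1 ∨ T < td x.2` are at most `C X log X / T = C X / K ≤ c2 X / 2` (`big`).  So at least `c2 X / 2` of them have `td x.1 ≤ T`, `td x.2 ≤ T`.  The map `x ↦ (kk x.1 x.2).toNat` sends them to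
`(Icc 1 X).filter P` and has fibres of size at most `T²` (`per_k`).  So `c2 X / 2 ≤ T² · #` (`Finset.card_eq_sum_card_fiberwise`), `# ≥ c2 X / (2 K² (log X)²)`; `κ = c2 / (2 K²)`, `X0 = 3`.
-/

namespace Pool.Agent.Lib.MP_d57abb_nt.GA.TS

variable [Pool.Agent.Lib.MP_d57abb_nt.GA.TA.Lab]

open Finset Pool.Agent.Lib.MP_d57abb_nt Pool.Agent.Lib.MP_d57abb_nt.GA.TA Pool.Agent.Lib.MP_d57abb_nt.GA.TZ

theorem count (c : ℝ) (hc : 1 ≤ c) (c2 : ℝ) (h2 : 0 < c2) : ∃ κ : ℝ, 0 < κ ∧ ∀ X : ℕ, 3 ≤ X →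
    ∀ (P : ℕ → Prop) [DecidablePred P],
      c2 * X ≤ ∑ k ∈ (Icc 1 X).filter P, (tc c k : ℝ) →
        κ * X / (Real.log X) ^ 2 ≤ (((Icc 1 X).filter P).card : ℝ) := by
  classical
  obtain ⟨C, hC, hbig⟩ := big c hc
  obtain ⟨K, hK⟩ : ∃ K : ℝ, K = max (2 * C / c2) 2 := ⟨_, rfl⟩
  have hK2 : 2 ≤ K := by
    rw [hK]
    exact le_max_right _ _
  have hK1 : 2 * C / c2 ≤ K := by
    rw [hK]
    exact le_max_left _ _
  have hK0 : 0 < K := by linarith
  refine ⟨c2 / (2 * K ^ 2), by positivity, ?_⟩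
  intro X hX P _ hP
  have hX0 : (3 : ℝ) ≤ X := by exact_mod_cast hX
  have hXp : (0 : ℝ) < X := by linarith
  obtain ⟨L, hL⟩ : ∃ L : ℝ, L = Real.log X := ⟨_, rfl⟩
  have hL1 : 1 ≤ L := by
    rw [hL, Real.le_log_iff_exp_le hXp]
    have := Real.exp_one_lt_d9
    norm_num at this
    linarith
  rw [← hL]
  have hT : 1 ≤ K * L := by nlinarith
  -- the number of frames
  have hcard : (∑ k ∈ (Icc 1 X).filter P, (tc c k : ℝ)) =
      (((GG (1 / c) c X).filter (fun x => P (kk x.1 x.2).toNat)).card : ℝ) := by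
    rw [← sum_wn (1 / c) c X P, Nat.cast_sum]
    refine Finset.sum_congr rfl fun k _ => ?_
    rw [tc_wn c (by linarith) k]
  rw [hcard] at hP
  have hbad := hbig X (by omega) (K * L) hT
  rw [← hL] at hbad
  have hbad2 : C * X * L / (K * L) ≤ c2 * X / 2 := by
    have hL0 : 0 < L := by linarith
    rw [div_le_div_iff₀ (by positivity) (by norm_num)]
    rw [div_le_iff₀ h2] at hK1
    have : 0 ≤ X * L := by positivity
    nlinarith [mul_le_mul_of_nonneg_right hK1 this]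
  -- good frames
  have hsplit : ((GG (1 / c) c X).filter (fun x => P (kk x.1 x.2).toNat)).card ≤
      (((GG (1 / c) c X).filter (fun x => P (kk x.1 x.2).toNat)).filter
        (fun x => (td x.1 : ℝ) ≤ K * L ∧ (td x.2 : ℝ) ≤ K * L)).card +
      ((GG (1 / c) c X).filter (fun x => K * L < td x.1 ∨ K * L < td x.2)).card := by
    rw [← Finset.card_filter_add_card_filter_not
      (s := (GG (1 / c) c X).filter (fun x => P (kk x.1 x.2).toNat))
      (fun x => (td x.1 : ℝ) ≤ K * L ∧ (td x.2 : ℝ) ≤ K * L)]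
    refine Nat.add_le_add_left (Finset.card_le_card fun x hx => ?_) _
    rw [Finset.mem_filter, Finset.mem_filter] at hx
    rw [Finset.mem_filter]
    refine ⟨hx.1.1, ?_⟩
    by_contra hn
    rw [not_or, not_lt, not_lt] at hn
    exact hx.2 hn
  have hsplit' : (((GG (1 / c) c X).filter (fun x => P (kk x.1 x.2).toNat)).card : ℝ) ≤
      ((((GG (1 / c) c X).filter (fun x => P (kk x.1 x.2).toNat)).filter
        (fun x => (td x.1 : ℝ) ≤ K * L ∧ (td x.2 : ℝ) ≤ K * L)).card : ℝ) +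
      (((GG (1 / c) c X).filter (fun x => K * L < td x.1 ∨ K * L < td x.2)).card : ℝ) := by
    exact_mod_cast hsplit
  have hfib : ((((GG (1 / c) c X).filter (fun x => P (kk x.1 x.2).toNat)).filter
        (fun x => (td x.1 : ℝ) ≤ K * L ∧ (td x.2 : ℝ) ≤ K * L)).card : ℝ) ≤
      (((Icc 1 X).filter P).card : ℝ) * (K * L) ^ 2 := by
    rw [Finset.card_eq_sum_card_fiberwise (f := fun x : (ℤ × ℤ) × (ℤ × ℤ) => (kk x.1 x.2).toNat)
      (t := (Icc 1 X).filter P)]
    · rw [Nat.cast_sum, ← nsmul_eq_mul]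
      refine Finset.sum_le_card_nsmul _ _ _ fun k _ => ?_
      refine le_trans ?_ (per_k (1 / c) c X k (K * L) hT)
      have hsub := Finset.card_le_card (s := (((GG (1 / c) c X).filter
        (fun x => P (kk x.1 x.2).toNat)).filter
          (fun x => (td x.1 : ℝ) ≤ K * L ∧ (td x.2 : ℝ) ≤ K * L)).filter
          (fun x => (kk x.1 x.2).toNat = k)) (t := (GG (1 / c) c X).filter
          (fun x => (kk x.1 x.2).toNat = k ∧ (td x.1 : ℝ) ≤ K * L ∧ (td x.2 : ℝ) ≤ K * L))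
          (fun x hx => by
            rw [Finset.mem_filter, Finset.mem_filter, Finset.mem_filter] at hx
            rw [Finset.mem_filter]
            exact ⟨hx.1.1.1, hx.2, hx.1.2⟩)
      exact_mod_cast hsub
    · intro x hx
      rw [Finset.mem_coe, Finset.mem_filter, Finset.mem_filter] at hx
      rw [Finset.mem_coe, Finset.mem_filter, Finset.mem_Icc]
      obtain ⟨-, -, -, k1, k2, -, -⟩ := mem_GG.1 hx.1.1
      refine ⟨⟨?_, ?_⟩, hx.1.2⟩
      · show 1 ≤ (kk x.1 x.2).toNat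
        omega
      · show (kk x.1 x.2).toNat ≤ X
        omega
  have hmain : c2 * X / 2 ≤ (((Icc 1 X).filter P).card : ℝ) * (K * L) ^ 2 := by linarith
  have hL0 : 0 < L := by linarith
  have e1 : c2 / (2 * K ^ 2) * X / L ^ 2 = c2 * X / 2 / (K * L) ^ 2 := by
    field_simp
  rw [e1, div_le_iff₀ (by positivity)]
  exact hmain

end Pool.Agent.Lib.MP_d57abb_nt.GA.TS
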