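import Pool.Agent.Lib.MP_d57abb_nt.GA.TS.Defs
import Pool.Agent.Lib.MP_d57abb_nt.GA.TZ.Low

/-!
# lower bound in natural scale

`mass_ge`: `low_block` (TZ/Low): `δ ≤ ∑ k ∈ Icc (Z²) (10 Z²), tc c k / k` for `Z ≥ Z1`.  As `k ≥ Z²` in this sum, `δ Z² ≤ ∑ k ∈ Icc (Z²) (10 Z²), tc c k`.
Given `N ≥ N0` let `Z = Nat.sqrt (N / 10)` (so `10 Z² ≤ N` and `N < 10 (Z + 1)² + 10 ≤ 80 Z²` for `Z ≥ 1`), so the sum up to `N` is at least `δ Z² ≥ δ N / 80`.  Take `c0 = δ / 80`,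
`N0 = 10 (Z1 + 1)² `.
-/

namespace Pool.Agent.Lib.MP_d57abb_nt.GA.TS

variable [Pool.Agent.Lib.MP_d57abb_nt.GA.TA.Lab]

open Finset Pool.Agent.Lib.MP_d57abb_nt Pool.Agent.Lib.MP_d57abb_nt.GA.TA Pool.Agent.Lib.MP_d57abb_nt.GA.TZ

theorem mass_ge (c : ℝ) (hc : 1 < c) : ∃ c0 : ℝ, 0 < c0 ∧ ∃ N0 : ℕ, ∀ N : ℕ, N0 ≤ N →
    c0 * N ≤ ∑ k ∈ Icc 1 N, (tc c k : ℝ) := by
  obtain ⟨δ, hδ, Z1, hZ1⟩ := low_block c hc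
  refine ⟨δ / 80, by positivity, 10 * (Z1 + 1) ^ 2, fun N hN => ?_⟩
  obtain ⟨Z, hZ⟩ : ∃ Z, Z = Nat.sqrt (N / 10) := ⟨_, rfl⟩
  have h1 : Z * Z ≤ N / 10 := by
    rw [hZ]
    exact Nat.sqrt_le _
  have h2 : N / 10 < (Z + 1) * (Z + 1) := by
    rw [hZ]
    exact Nat.lt_succ_sqrt _
  have h3 : Z1 + 1 ≤ Z := by
    rw [hZ, Nat.le_sqrt]
    have : (Z1 + 1) * (Z1 + 1) = (Z1 + 1) ^ 2 := by ring
    omega
  have h4 : 10 * (Z * Z) ≤ N := by omega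
  have h5 : N < 10 * ((Z + 1) * (Z + 1)) + 10 := by omega
  have hZ1' : 1 ≤ Z := by omega
  have h6 : N ≤ 80 * Z ^ 2 := by nlinarith
  have hb := hZ1 Z (by omega)
  have hZ0 : (0 : ℝ) < (Z : ℝ) ^ 2 := by
    have : (0 : ℝ) < Z := by exact_mod_cast hZ1'
    positivity
  have h7 : δ * (Z : ℝ) ^ 2 ≤ ∑ k ∈ Icc (Z ^ 2) (10 * Z ^ 2), (tc c k : ℝ) := by
    have h8 : ∑ k ∈ Icc (Z ^ 2) (10 * Z ^ 2), (tc c k : ℝ) / k ≤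
        ∑ k ∈ Icc (Z ^ 2) (10 * Z ^ 2), (tc c k : ℝ) / (Z : ℝ) ^ 2 := by
      refine sum_le_sum fun k hk => ?_
      have h9 : ((Z ^ 2 : ℕ) : ℝ) ≤ k := by exact_mod_cast (mem_Icc.1 hk).1
      push_cast at h9
      exact div_le_div_of_nonneg_left (Nat.cast_nonneg _) hZ0 h9
    rw [← Finset.sum_div] at h8
    have h10 := hb.trans h8
    rwa [le_div_iff₀ hZ0] at h10
  have h11 : ∑ k ∈ Icc (Z ^ 2) (10 * Z ^ 2), (tc c k : ℝ) ≤ ∑ k ∈ Icc 1 N, (tc c k : ℝ) := by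
    refine sum_le_sum_of_subset_of_nonneg ?_ (fun _ _ _ => Nat.cast_nonneg _)
    intro k hk
    obtain ⟨k1, k2⟩ := mem_Icc.1 hk
    rw [mem_Icc]
    have h12 : 1 ≤ Z ^ 2 := Nat.one_le_pow _ _ hZ1'
    have h13 : Z ^ 2 = Z * Z := by ring
    constructor <;> omega
  have h14 : (N : ℝ) ≤ 80 * (Z : ℝ) ^ 2 := by exact_mod_cast h6
  have h15 : δ / 80 * N ≤ δ / 80 * (80 * (Z : ℝ) ^ 2) :=
    mul_le_mul_of_nonneg_left h14 (by positivity)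
  linarith

end Pool.Agent.Lib.MP_d57abb_nt.GA.TS
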