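import Pool.Agent.Lib.MP_d57abb_nt.GA.TS.Per
import Pool.Agent.Lib.MP_d57abb_nt.GA.TS.Mk

/-!
# few frames have a norm with many divisors

`big`: let `Q = ⌈√(5 c N)⌉₊ ≥ 1`.  For `x ∈ GG (1/c) c N` both vectors are in `Bx Q` (`geo`: `0 ≤ v.1 ≤ ll v ≤ √(c N)`, `ll w ≤ √(5 c N)`) and coprime (`cop_of_dt`).  So the frames with `T < td x.1` are at most
`∑ v ∈ B, #{x ∈ GG : x.1 = v} ≤ 4 c |B|` (`per_v`; `Finset.card_eq_sum_card_fiberwise` or `card_le_mul_card_image`), `B` the set of `vec_card`; the same for `T < td x.2` (`per_w`).  Together at most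
`8 c · 32 Q² (1 + log (3 Q)) / T`.  `Q ≤ √(5 c N) + 1 ≤ 2 √(5 c N)`, `Q² ≤ 20 c N`, and `1 + log (3 Q) ≤ 1 + log (3 · 20 c N) ≤ 1 + log 60 + log c + log N ≤ C log N` for `N ≥ 2` (`log N ≥ log 2 ≥ 1/2`),
e.g. `C = 2 (1 + log 60 + log c) + 1`.
-/

namespace Pool.Agent.Lib.MP_d57abb_nt.GA.TS

variable [Pool.Agent.Lib.MP_d57abb_nt.GA.TA.Lab]

open Finset Pool.Agent.Lib.MP_d57abb_nt Pool.Agent.Lib.MP_d57abb_nt.GA.TA Pool.Agent.Lib.MP_d57abb_nt.GA.TZ

open Classical in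
private theorem Big_side (c : ℝ) (hc : 1 ≤ c) (N : ℕ) (Q : ℕ) (hQ : √(5 * c * N) ≤ Q) (T : ℝ)
    (f : (ℤ × ℤ) × (ℤ × ℤ) → ℤ × ℤ)
    (hq : ∀ x ∈ GG (1 / c) c N, Qd (f x) ∧ IsCoprime (f x).1 (f x).2 ∧
      (ll (f x) : ℝ) ^ 2 ≤ 5 * c * N)
    (hf : ∀ v, (((GG (1 / c) c N).filter (fun x => f x = v)).card : ℝ) ≤ 4 * c) :
    (((GG (1 / c) c N).filter (fun x => T < td (f x))).card : ℝ) ≤
      4 * c * (((Bx Q).filter (fun v => IsCoprime v.1 v.2 ∧ T < td v)).card : ℝ) := by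
  have hmaps : ∀ x ∈ (GG (1 / c) c N).filter (fun x => T < td (f x)),
      f x ∈ (Bx Q).filter (fun v => IsCoprime v.1 v.2 ∧ T < td v) := by
    intro x hx
    rw [mem_filter] at hx
    obtain ⟨h1, h2, h3⟩ := hq x hx.1
    rw [mem_filter]
    refine ⟨?_, h2, hx.2⟩
    have h4 : (ll (f x) : ℝ) ≤ Q := (Real.le_sqrt_of_sq_le h3).trans hQ
    have h5 : ll (f x) ≤ (Q : ℤ) := by exact_mod_cast h4
    obtain ⟨g1, g2, -⟩ := h1
    unfold ll at h5
    unfold Bx
    rw [mem_product, mem_Icc, mem_Icc]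
    exact ⟨⟨g1, by linarith⟩, g2, by linarith⟩
  have h1 : (((GG (1 / c) c N).filter (fun x => T < td (f x))).card : ℝ) =
      ∑ v ∈ (Bx Q).filter (fun v => IsCoprime v.1 v.2 ∧ T < td v),
        ((((GG (1 / c) c N).filter (fun x => T < td (f x))).filter (fun x => f x = v)).card : ℝ) := by
    exact_mod_cast congrArg (fun n : ℕ => (n : ℝ)) (Finset.card_eq_sum_card_fiberwise hmaps)
  rw [h1]
  have h2 : ∀ v ∈ (Bx Q).filter (fun v => IsCoprime v.1 v.2 ∧ T < td v),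
      ((((GG (1 / c) c N).filter (fun x => T < td (f x))).filter (fun x => f x = v)).card : ℝ) ≤
        4 * c := by
    intro v _
    refine le_trans ?_ (hf v)
    have h3 : ((GG (1 / c) c N).filter (fun x => T < td (f x))).filter (fun x => f x = v) ⊆
        (GG (1 / c) c N).filter (fun x => f x = v) := by
      intro x hx
      rw [mem_filter, mem_filter] at hx
      rw [mem_filter]
      exact ⟨hx.1.1, hx.2⟩
    exact_mod_cast Finset.card_le_card h3
  refine (sum_le_sum h2).trans ?_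
  rw [sum_const, nsmul_eq_mul, mul_comm]

open Classical in
theorem big (c : ℝ) (hc : 1 ≤ c) : ∃ C : ℝ, 0 < C ∧ ∀ N : ℕ, 2 ≤ N → ∀ T : ℝ, 1 ≤ T →
    (((GG (1 / c) c N).filter (fun x => T < td x.1 ∨ T < td x.2)).card : ℝ) ≤
      C * N * Real.log N / T := by
  have hc0 : 0 < c := by linarith
  have hlc : 0 ≤ Real.log c := Real.log_nonneg hc
  have hl60 : 0 ≤ Real.log 60 := Real.log_nonneg (by norm_num)
  refine ⟨8 * c * (32 * (20 * c) * (2 * (1 + Real.log 60 + Real.log c) + 1)), by positivity, ?_⟩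
  intro N hN T hT
  have hN2 : (2 : ℝ) ≤ N := by exact_mod_cast hN
  have hN0 : (0 : ℝ) < N := by linarith
  have hT0 : 0 < T := by linarith
  obtain ⟨Q, hQ⟩ : ∃ Q, Q = ⌈√(5 * c * N)⌉₊ := ⟨_, rfl⟩
  have h5 : (1 : ℝ) ≤ 5 * c * N := by nlinarith
  have hs1 : 1 ≤ √(5 * c * N) := by
    rw [Real.one_le_sqrt]
    exact h5
  have hQ1 : √(5 * c * N) ≤ Q := by
    rw [hQ]
    exact Nat.le_ceil _
  have hQ2 : (Q : ℝ) ≤ 2 * √(5 * c * N) := by
    rw [hQ]
    have := Nat.ceil_lt_add_one (Real.sqrt_nonneg (5 * c * N))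
    linarith
  have hQR : (1 : ℝ) ≤ Q := hs1.trans hQ1
  have hQ3 : 1 ≤ Q := by exact_mod_cast hQR
  have hQsq : (Q : ℝ) ^ 2 ≤ 20 * c * N := by
    calc (Q : ℝ) ^ 2 ≤ (2 * √(5 * c * N)) ^ 2 := pow_le_pow_left₀ (by linarith) hQ2 2
      _ = 4 * (√(5 * c * N) ^ 2) := by ring
      _ = 4 * (5 * c * N) := by rw [Real.sq_sqrt (by linarith)]
      _ = 20 * c * N := by ring
  have hlogN : 1 / 2 ≤ Real.log N := by
    have h1 : Real.log 2 ≤ Real.log N := Real.log_le_log (by norm_num) hN2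
    have h2 := Real.log_two_gt_d9
    linarith
  have hlogQ : 1 + Real.log (3 * Q) ≤ (2 * (1 + Real.log 60 + Real.log c) + 1) * Real.log N := by
    have h1 : 3 * (Q : ℝ) ≤ 60 * c * N := by nlinarith
    have h2 : Real.log (3 * Q) ≤ Real.log (60 * c * N) := Real.log_le_log (by linarith) h1
    rw [Real.log_mul (by positivity) hN0.ne', Real.log_mul (by norm_num) hc0.ne'] at h2
    nlinarith
  have hlog0 : 0 ≤ 1 + Real.log (3 * Q) := by
    have := Real.log_nonneg (show (1 : ℝ) ≤ 3 * Q by linarith)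
    linarith
  have hB := vec_card Q hQ3 T hT
  have hA1 := Big_side c hc N Q hQ1 T (fun x => x.1) (fun x hx => by
      obtain ⟨g1, g2, g3, -⟩ := mem_GG.1 hx
      obtain ⟨k1, -, -, -⟩ := geo hc hx
      refine ⟨g1, (cop_of_dt g3).1, k1.trans ?_⟩
      nlinarith) (fun v => per_v hc N v)
  have hA2 := Big_side c hc N Q hQ1 T (fun x => x.2) (fun x hx => by
      obtain ⟨g1, g2, g3, -⟩ := mem_GG.1 hx
      obtain ⟨-, k1, -, -⟩ := geo hc hx
      exact ⟨g2, (cop_of_dt g3).2, k1⟩) (fun v => per_w hc N v)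
  have hsplit : (GG (1 / c) c N).filter (fun x => T < td x.1 ∨ T < td x.2) ⊆
      (GG (1 / c) c N).filter (fun x => T < td x.1) ∪
        (GG (1 / c) c N).filter (fun x => T < td x.2) := by
    intro x hx
    rw [mem_filter] at hx
    rw [mem_union, mem_filter, mem_filter]
    rcases hx.2 with h | h
    · exact Or.inl ⟨hx.1, h⟩
    · exact Or.inr ⟨hx.1, h⟩
  have hcard : (((GG (1 / c) c N).filter (fun x => T < td x.1 ∨ T < td x.2)).card : ℝ) ≤
      (((GG (1 / c) c N).filter (fun x => T < td x.1)).card : ℝ) +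
        (((GG (1 / c) c N).filter (fun x => T < td x.2)).card : ℝ) := by
    exact_mod_cast (Finset.card_le_card hsplit).trans (Finset.card_union_le _ _)
  have hfin : 32 * (Q : ℝ) ^ 2 * (1 + Real.log (3 * Q)) ≤
      32 * (20 * c * N) * ((2 * (1 + Real.log 60 + Real.log c) + 1) * Real.log N) :=
    mul_le_mul (mul_le_mul_of_nonneg_left hQsq (by norm_num)) hlogQ hlog0 (by positivity)
  have hfin2 : 32 * (Q : ℝ) ^ 2 * (1 + Real.log (3 * Q)) / T ≤
      32 * (20 * c * N) * ((2 * (1 + Real.log 60 + Real.log c) + 1) * Real.log N) / T :=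
    div_le_div_of_nonneg_right hfin hT0.le
  have hB2 := mul_le_mul_of_nonneg_left (hB.trans hfin2) (show 0 ≤ 4 * c by positivity)
  calc (((GG (1 / c) c N).filter (fun x => T < td x.1 ∨ T < td x.2)).card : ℝ)
      ≤ 4 * c * (32 * (20 * c * N) * ((2 * (1 + Real.log 60 + Real.log c) + 1) * Real.log N) / T) +
        4 * c * (32 * (20 * c * N) * ((2 * (1 + Real.log 60 + Real.log c) + 1) * Real.log N) / T) :=
        hcard.trans (add_le_add (hA1.trans hB2) (hA2.trans hB2))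
    _ = 8 * c * (32 * (20 * c) * (2 * (1 + Real.log 60 + Real.log c) + 1)) * N * Real.log N / T := by
        ring

end Pool.Agent.Lib.MP_d57abb_nt.GA.TS
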