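import Pool.Agent.Lib.MP_d57abb_nt.GA.TZ.Div
import Pool.Agent.Lib.MP_d57abb_nt.GA.TZ.Size

/-!
# Stream TS (natural densities and counting): definitions
-/

namespace Pool.Agent.Lib.MP_d57abb_nt.GA.TS

variable [Pool.Agent.Lib.MP_d57abb_nt.GA.TA.Lab]

open Finset Pool.Agent.Lib.MP_d57abb_nt Pool.Agent.Lib.MP_d57abb_nt.GA.TA Pool.Agent.Lib.MP_d57abb_nt.GA.TZ

noncomputable section

open Classical in
/-- the number of divisors of `k² + 3 k + 1` in `[α k, β k]` -/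
def wn (α β : ℝ) (k : ℕ) : ℕ :=
  ((ff k).divisors.filter (fun d : ℕ => α * k ≤ d ∧ (d : ℝ) ≤ β * k)).card

open Classical in
/-- the frames with `1 ≤ kk ≤ N` and `α kk ≤ nm v ≤ β kk` -/
def GG (α β : ℝ) (N : ℕ) : Finset ((ℤ × ℤ) × (ℤ × ℤ)) :=
  (pr (N + 1) 1).filter (fun x => (1 ≤ kk x.1 x.2 ∧ kk x.1 x.2 ≤ N) ∧
    α * kk x.1 x.2 ≤ nm x.1 ∧ (nm x.1 : ℝ) ≤ β * kk x.1 x.2)

/-- the number of divisors of the norm -/
def td (v : ℤ × ℤ) : ℕ := (nm v).natAbs.divisors.card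

end

end Pool.Agent.Lib.MP_d57abb_nt.GA.TS
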