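import Pool.Agent.Lib.MP_d57abb_nt.GA.TS.Defs

/-!
# sums over `k` are numbers of frames

* `mem_GG`: unfold `GG`, `mem_filter`, `mem_pr1` (Size); the coordinates are at most `kk + 1 ≤ N + 1` by `frame_le` (Div).
* `sum_wn`: copy of `Thin_En` in `TZ/Thin.lean` (with weight `1` instead of `1 / kk`): `Finset.card_eq_sum_card_fiberwise` for the map `x ↦ (kk x.1 x.2).toNat` from the right side to
  `(Icc 1 N).filter P`; the fibre over `k` has `wn α β k` members by `sum_div` (Div) with `F n = if α k ≤ n ∧ n ≤ β k then 1 else 0`.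
* `tc_wn`: `k ≤ c d ↔ (1 / c) k ≤ d` for `c > 0`.
-/

namespace Pool.Agent.Lib.MP_d57abb_nt.GA.TS

variable [Pool.Agent.Lib.MP_d57abb_nt.GA.TA.Lab]

open Finset Pool.Agent.Lib.MP_d57abb_nt Pool.Agent.Lib.MP_d57abb_nt.GA.TA Pool.Agent.Lib.MP_d57abb_nt.GA.TZ

theorem mem_GG {α β : ℝ} {N : ℕ} {x : (ℤ × ℤ) × (ℤ × ℤ)} : x ∈ GG α β N ↔
    Qd x.1 ∧ Qd x.2 ∧ dt x.1 x.2 = 1 ∧ 1 ≤ kk x.1 x.2 ∧ kk x.1 x.2 ≤ N ∧
      α * kk x.1 x.2 ≤ nm x.1 ∧ (nm x.1 : ℝ) ≤ β * kk x.1 x.2 := by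
  unfold GG
  rw [mem_filter, mem_pr1]
  constructor
  · rintro ⟨⟨h1, h2, h3, -⟩, ⟨h4, h5⟩, h6, h7⟩
    exact ⟨h1, h2, h3, h4, h5, h6, h7⟩
  · rintro ⟨h1, h2, h3, h4, h5, h6, h7⟩
    obtain ⟨g1, g2, g3, g4⟩ := frame_le h1 h2 h3
    have hN : kk x.1 x.2 + 1 ≤ ((N + 1 : ℕ) : ℤ) := by
      push_cast
      linarith
    exact ⟨⟨h1, h2, h3, g1.trans hN, g2.trans hN, g3.trans hN, g4.trans hN⟩, ⟨h4, h5⟩, h6, h7⟩

private theorem FrM_fib (α β : ℝ) (N k : ℕ) (hk1 : 1 ≤ k) (hkN : k ≤ N) :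
    wn α β k = ((GG α β N).filter (fun x => (kk x.1 x.2).toNat = k)).card := by
  classical
  have h1 : wn α β k = ∑ d ∈ (ff k).divisors,
      (fun n : ℤ => if α * k ≤ (n : ℝ) ∧ (n : ℝ) ≤ β * k then 1 else 0) (d : ℤ) := by
    unfold wn
    rw [Finset.card_filter]
    refine sum_congr rfl fun d _ => ?_
    simp only [Int.cast_natCast]
  have h1' := sum_div k (N + 1) (by omega)
    (fun n : ℤ => if α * k ≤ (n : ℝ) ∧ (n : ℝ) ≤ β * k then (1 : ℕ) else 0)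
  refine (h1.trans h1'.symm).trans ?_
  rw [← Finset.card_filter]
  have hset : ((pr (N + 1) 1).filter (fun x => kk x.1 x.2 = k)).filter
      (fun x => α * k ≤ (nm x.1 : ℝ) ∧ (nm x.1 : ℝ) ≤ β * k) =
      (GG α β N).filter (fun x => (kk x.1 x.2).toNat = k) := by
    ext x
    unfold GG
    simp only [mem_filter]
    constructor
    · rintro ⟨⟨a1, a2⟩, a3, a4⟩
      refine ⟨⟨a1, ⟨by omega, by omega⟩, ?_⟩, by omega⟩
      rw [a2]
      push_cast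
      exact ⟨a3, a4⟩
    · rintro ⟨⟨a1, ⟨a2, a3⟩, a4, a5⟩, a6⟩
      have a7 : kk x.1 x.2 = k := by omega
      rw [a7] at a4 a5
      push_cast at a4 a5
      exact ⟨⟨a1, a7⟩, a4, a5⟩
  rw [hset]

theorem sum_wn (α β : ℝ) (N : ℕ) (P : ℕ → Prop) [DecidablePred P] :
    ∑ k ∈ (Icc 1 N).filter P, wn α β k =
      ((GG α β N).filter (fun x => P (kk x.1 x.2).toNat)).card := by
  classical
  have hmaps : ∀ x ∈ (GG α β N).filter (fun x => P (kk x.1 x.2).toNat),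
      (kk x.1 x.2).toNat ∈ (Icc 1 N).filter P := by
    intro x hx
    obtain ⟨hx1, hx2⟩ := mem_filter.1 hx
    obtain ⟨-, -, -, h4, h5, -⟩ := mem_GG.1 hx1
    refine mem_filter.2 ⟨mem_Icc.2 ⟨by omega, by omega⟩, hx2⟩
  rw [Finset.card_eq_sum_card_fiberwise hmaps]
  refine sum_congr rfl fun k hk => ?_
  obtain ⟨hk1, hkP⟩ := mem_filter.1 hk
  obtain ⟨hk2, hk3⟩ := mem_Icc.1 hk1
  rw [FrM_fib α β N k hk2 hk3]
  have hset : (GG α β N).filter (fun x => (kk x.1 x.2).toNat = k) =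
      ((GG α β N).filter (fun x => P (kk x.1 x.2).toNat)).filter
        (fun x => (kk x.1 x.2).toNat = k) := by
    ext x
    simp only [mem_filter]
    constructor
    · rintro ⟨a1, a2⟩
      refine ⟨⟨a1, ?_⟩, a2⟩
      rw [a2]
      exact hkP
    · rintro ⟨⟨a1, -⟩, a2⟩
      exact ⟨a1, a2⟩
  rw [hset]

theorem sum_wn_all (α β : ℝ) (N : ℕ) : ∑ k ∈ Icc 1 N, wn α β k = (GG α β N).card := by
  have h := sum_wn α β N (fun _ => True)
  rw [Finset.filter_true, Finset.filter_true] at h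
  exact h

theorem tc_wn (c : ℝ) (hc : 0 < c) (k : ℕ) : tc c k = wn (1 / c) c k := by
  unfold tc wn
  have h : ∀ d : ℕ, ((k : ℝ) ≤ c * d ∧ (d : ℝ) ≤ c * k) ↔ (1 / c * k ≤ d ∧ (d : ℝ) ≤ c * k) := by
    intro d
    have h1 : 1 / c * (k : ℝ) = k / c := by ring
    rw [h1, div_le_iff₀' hc]
  have h2 : (ff k).divisors.filter (fun d : ℕ => (k : ℝ) ≤ c * d ∧ (d : ℝ) ≤ c * k) =
      (ff k).divisors.filter (fun d : ℕ => 1 / c * k ≤ d ∧ (d : ℝ) ≤ c * k) := by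
    ext d
    rw [mem_filter, mem_filter, h d]
  rw [h2]

end Pool.Agent.Lib.MP_d57abb_nt.GA.TS
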