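import Pool.Agent.Lib.MP_d57abb_nt.GA.TS.Geo

/-!
# each vector is in few frames

* `per_v`: for `x = (v, w)` in the set, `s = ll v > 0` is fixed and `0 < t = ll w ≤ (5/2) c s` (`geo`).  The map `x ↦ (ll x.2 / ll x.1)` (integer division) goes to `Icc 0 ⌊5/2 c⌋` (`Int.ediv`,
  `ll w / ll v ≤ 5/2 c` in the reals) and is injective: if `dt v w = dt v w' = 1` then `dt v (w' - w) = 0`, so `w' - w = n • v` for an integer `n` (`v.1 (w'.2 - w.2) = (w'.1 - w.1) v.2`, `v` is primitive; explicitly `n = w.2... `: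
  with `v.1 w.2 - w.1 v.2 = 1` one has `w' - w = n v` for `n = w.2 (w'.1 - w.1) - w.1 (w'.2 - w.2)`), `ll w' - ll w = n ll v`, and equal quotients give `|ll w' - ll w| < ll v`, `n = 0`.
  The number is at most `⌊5/2 c⌋ + 1 ≤ 4 c`.
* `per_w`: the same with `v ↦ ll v / ll w`; `v' - v = n w` with `n = v.1 (v'.2 - v.2) - v.2 (v'.1 - v.1)`.
-/

namespace Pool.Agent.Lib.MP_d57abb_nt.GA.TS

variable [Pool.Agent.Lib.MP_d57abb_nt.GA.TA.Lab]

open Finset Pool.Agent.Lib.MP_d57abb_nt Pool.Agent.Lib.MP_d57abb_nt.GA.TA Pool.Agent.Lib.MP_d57abb_nt.GA.TZ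

private theorem Per_card {α : Type*} (S : Finset α) (f : α → ℤ) {c : ℝ} (hc : 1 ≤ c)
    (h0 : ∀ x ∈ S, 0 ≤ f x) (h1 : ∀ x ∈ S, (f x : ℝ) ≤ 5 / 2 * c)
    (hinj : ∀ x ∈ S, ∀ y ∈ S, f x = f y → x = y) : (S.card : ℝ) ≤ 4 * c := by
  have h2 : S.card ≤ (Icc (0 : ℤ) ⌊5 / 2 * c⌋).card := by
    refine Finset.card_le_card_of_injOn f ?_ ?_
    · intro x hx
      have hx' := Finset.mem_coe.mp hx
      exact Finset.mem_coe.mpr (Finset.mem_Icc.mpr ⟨h0 x hx', Int.le_floor.mpr (h1 x hx')⟩)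
    · intro x hx y hy he
      exact hinj x (Finset.mem_coe.mp hx) y (Finset.mem_coe.mp hy) he
  rw [Int.card_Icc] at h2
  have h3 : (0 : ℤ) ≤ ⌊5 / 2 * c⌋ := Int.floor_nonneg.mpr (by linarith)
  have h4 : ((⌊5 / 2 * c⌋ : ℤ) : ℝ) ≤ 5 / 2 * c := Int.floor_le _
  have h5 : (S.card : ℤ) ≤ ⌊5 / 2 * c⌋ + 1 := by omega
  have h6 : (S.card : ℝ) ≤ ((⌊5 / 2 * c⌋ : ℤ) : ℝ) + 1 := by exact_mod_cast h5
  linarith

private theorem Per_div {a b : ℤ} {c : ℝ} (hb : 0 < b) (h : (a : ℝ) ≤ 5 / 2 * c * b) :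
    ((a / b : ℤ) : ℝ) ≤ 5 / 2 * c := by
  have h1 : a / b * b ≤ a := Int.ediv_mul_le a hb.ne'
  have h2 : ((a / b : ℤ) : ℝ) * b ≤ a := by exact_mod_cast h1
  have hb' : (0 : ℝ) < b := by exact_mod_cast hb
  exact le_of_mul_le_mul_right (h2.trans h) hb'

private theorem Per_quot {a b n : ℤ} (hb : 0 < b) (h : a / b = (a + n * b) / b) : n = 0 := by
  rw [Int.add_mul_ediv_right _ _ hb.ne'] at h
  linarith

private theorem Per_mem {c : ℝ} {N : ℕ} {x : (ℤ × ℤ) × (ℤ × ℤ)} (hx : x ∈ GG (1 / c) c N) :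
    0 < ll x.1 ∧ 0 < ll x.2 ∧ dt x.1 x.2 = 1 := by
  unfold GG at hx
  have h1 := mem_pr1.mp (Finset.mem_filter.mp hx).1
  exact ⟨h1.1.ll_pos, h1.2.1.ll_pos, h1.2.2.1⟩

theorem per_v {c : ℝ} (hc : 1 ≤ c) (N : ℕ) (v : ℤ × ℤ) :
    (((GG (1 / c) c N).filter (fun x => x.1 = v)).card : ℝ) ≤ 4 * c := by
  refine Per_card _ (fun x => ll x.2 / ll x.1) hc ?_ ?_ ?_
  · intro x hx
    obtain ⟨h1, h2, _⟩ := Per_mem (Finset.mem_filter.mp hx).1
    exact Int.ediv_nonneg h2.le h1.le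
  · intro x hx
    obtain ⟨h1, h2, _⟩ := Per_mem (Finset.mem_filter.mp hx).1
    exact Per_div h1 (geo hc (Finset.mem_filter.mp hx).1).2.2.1
  · intro x hx y hy he
    obtain ⟨hx1, hxv⟩ := Finset.mem_filter.mp hx
    obtain ⟨hy1, hyv⟩ := Finset.mem_filter.mp hy
    obtain ⟨h1, h2, h3⟩ := Per_mem hx1
    obtain ⟨k1, k2, k3⟩ := Per_mem hy1
    have he' : ll x.2 / ll x.1 = ll y.2 / ll y.1 := he
    rw [hxv] at h1 h3 he'
    rw [hyv] at k3 he'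
    have e1 : y.2.1 - x.2.1 = (x.2.2 * (y.2.1 - x.2.1) - x.2.1 * (y.2.2 - x.2.2)) * v.1 := by
      unfold dt at h3 k3
      linear_combination (x.2.1 - y.2.1) * h3 + x.2.1 * (k3 - h3)
    have e2 : y.2.2 - x.2.2 = (x.2.2 * (y.2.1 - x.2.1) - x.2.1 * (y.2.2 - x.2.2)) * v.2 := by
      unfold dt at h3 k3
      linear_combination (x.2.2 - y.2.2) * h3 + x.2.2 * (k3 - h3)
    generalize x.2.2 * (y.2.1 - x.2.1) - x.2.1 * (y.2.2 - x.2.2) = n at e1 e2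
    have e3 : ll y.2 = ll x.2 + n * ll v := by
      unfold ll
      linear_combination e1 + e2
    rw [e3] at he'
    have hn := Per_quot h1 he'
    rw [hn, zero_mul] at e1 e2
    exact Prod.ext (hxv.trans hyv.symm) (Prod.ext (by linarith) (by linarith))

theorem per_w {c : ℝ} (hc : 1 ≤ c) (N : ℕ) (w : ℤ × ℤ) :
    (((GG (1 / c) c N).filter (fun x => x.2 = w)).card : ℝ) ≤ 4 * c := by
  refine Per_card _ (fun x => ll x.1 / ll x.2) hc ?_ ?_ ?_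
  · intro x hx
    obtain ⟨h1, h2, _⟩ := Per_mem (Finset.mem_filter.mp hx).1
    exact Int.ediv_nonneg h1.le h2.le
  · intro x hx
    obtain ⟨h1, h2, _⟩ := Per_mem (Finset.mem_filter.mp hx).1
    exact Per_div h2 (geo hc (Finset.mem_filter.mp hx).1).2.2.2
  · intro x hx y hy he
    obtain ⟨hx1, hxw⟩ := Finset.mem_filter.mp hx
    obtain ⟨hy1, hyw⟩ := Finset.mem_filter.mp hy
    obtain ⟨h1, h2, h3⟩ := Per_mem hx1
    obtain ⟨k1, k2, k3⟩ := Per_mem hy1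
    have he' : ll x.1 / ll x.2 = ll y.1 / ll y.2 := he
    rw [hxw] at h2 h3 he'
    rw [hyw] at k3 he'
    have e1 : y.1.1 - x.1.1 = (x.1.1 * (y.1.2 - x.1.2) - x.1.2 * (y.1.1 - x.1.1)) * w.1 := by
      unfold dt at h3 k3
      linear_combination (x.1.1 - y.1.1) * h3 + x.1.1 * (k3 - h3)
    have e2 : y.1.2 - x.1.2 = (x.1.1 * (y.1.2 - x.1.2) - x.1.2 * (y.1.1 - x.1.1)) * w.2 := by
      unfold dt at h3 k3
      linear_combination (x.1.2 - y.1.2) * h3 + x.1.2 * (k3 - h3)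
    generalize x.1.1 * (y.1.2 - x.1.2) - x.1.2 * (y.1.1 - x.1.1) = n at e1 e2
    have e3 : ll y.1 = ll x.1 + n * ll w := by
      unfold ll
      linear_combination e1 + e2
    rw [e3] at he'
    have hn := Per_quot h2 he'
    rw [hn, zero_mul] at e1 e2
    exact Prod.ext (Prod.ext (by linarith) (by linarith)) (hxw.trans hyw.symm)

end Pool.Agent.Lib.MP_d57abb_nt.GA.TS
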